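import Pool.Agent.Run7.h860.Hd.Stm

/-!
# Project HD (helper860), piece HE: Hermite interpolation, uniqueness (helper803)
-/

set_option autoImplicit false
set_option linter.all false

open Polynomial Finset

namespace Pool.Agent.Run7.h803.Hd

theorem pow_dvd {F : Type} [Field F] {f : Polynomial F} {a : F} {n : ℕ}
    (h : ∀ j < n, (hasseDeriv j f).eval a = 0) : (X - C a) ^ n ∣ f := by
  have h1 : ∀ j < n, (taylor a f).coeff j = 0 := by
    intro j hj
    rw [taylor_coeff]
    exact h j hj
  have h2 : X ^ n ∣ taylor a f := X_pow_dvd_iff.2 h1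
  obtain ⟨g, hg⟩ := h2
  have h3 : f = taylor (-a) (taylor a f) := by
    rw [taylor_taylor]
    simp
  rw [h3, hg, taylor_mul, taylor_pow, taylor_X, map_neg, ← sub_eq_add_neg]
  exact dvd_mul_right _ _

theorem t_HE : Pool.Agent.Run7.h860.Hd.S_HE := by
  intro F _ _ D d f hf ν hν h
  have h1 : ∏ a ∈ D, (X - C a) ^ (ν a) ∣ f := by
    refine Finset.prod_dvd_of_coprime ?_ fun a ha => pow_dvd (h a ha)
    intro a _ b _ hab
    exact (Polynomial.isCoprime_X_sub_C_of_isUnit_sub (sub_ne_zero.2 hab).isUnit).pow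
  by_contra h0
  have h2 := Polynomial.natDegree_le_of_dvd h1 h0
  have h3 : (∏ a ∈ D, (X - C a) ^ (ν a)).natDegree = d + 1 := by
    rw [natDegree_prod_of_monic _ _ fun a _ => (monic_X_sub_C a).pow _, ← hν]
    refine Finset.sum_congr rfl fun a _ => ?_
    rw [(monic_X_sub_C a).natDegree_pow, natDegree_X_sub_C, mul_one]
  omega

end Pool.Agent.Run7.h803.Hd
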